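import Pool.Agent.J4.H9.HM.Defs

/-!
# Potentially invariant representations: definitions
-/

set_option autoImplicit false

namespace Pool.Agent.J4.H28.PI

open Pool.Agent.J4.H9.HM

/-- The field of rational numbers. -/
noncomputable def ratField : NField := ⟨⊥, inferInstance⟩

variable {ℓ : ℕ} [Fact ℓ.Prime]

/-- Representations of the Galois groups of `k₁` and `k₂` are potentially isomorphic: they are isomorphic
over some common finite extension `K`. -/
def PotIsom {k₁ k₂ : NField} (R₁ : LRep ℓ k₁) (R₂ : LRep ℓ k₂) : Prop :=
  ∃ (K : NField) (h₁ : k₁.F ≤ K.F) (h₂ : k₂.F ≤ K.F), Isom (res h₁ R₁) (res h₂ R₂)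

/-- The representation stays irreducible over all finite extensions. For the representations of newforms
this means that the newform has no complex multiplication. -/
def StronglyIrr {k : NField} (R : LRep ℓ k) : Prop :=
  ∀ (K : NField) (h : k.F ≤ K.F), Irr (res h R)

/-- `u' = g u g⁻¹` (as automorphisms of the field of algebraic numbers) -/
def IsConj {L K : NField} (g : L.Gal) (u u' : K.Gal) : Prop :=
  ∀ x : Qb, NField.act u' (NField.act g x) = NField.act g (NField.act u x)

/-- `φ R(u) = R(u') φ` -/
def Commutes {K Γ : Type} [Field K] [Group Γ] (R : GRep K Γ) (φ : R.W →ₗ[K] R.W) (u u' : Γ) :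
    Prop :=
  ∀ x, φ (R.act u x) = R.act u' (φ x)

/-- The element `g` of a Galois group fixes the isomorphism class of the representation `R` over some
finite extension `K` of `k` (more precisely over the field generated by `K` and its image under
`g⁻¹`): for elements `u` and `u' = g u g⁻¹` of the Galois group of `K` the operators `R(u)` and
`R(u')` are conjugate by one bijective operator `φ` which does not depend on `u`. -/
def PotFixes {k L : NField} (R : LRep ℓ k) (g : L.Gal) (K : NField) (h : k.F ≤ K.F) : Prop :=
  ∃ φ : (res h R).W →ₗ[Qlb ℓ] (res h R).W, Function.Bijective φ ∧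
    ∀ u u' : K.Gal, IsConj g u u' → Commutes (res h R) φ u u'

/-- The representation `R` of the Galois group of `k` is potentially invariant under the Galois group
of `L`: every element `g` of the Galois group of `L` fixes the isomorphism class of `R` over some finite
extension (which may depend on `g`). -/
def PotInvariant (L : NField) {k : NField} (R : LRep ℓ k) : Prop :=
  ∀ g : L.Gal, ∃ (K : NField) (h : k.F ≤ K.F), PotFixes R g K h

variable (ℓ) in
/-- The characters of the Galois group of `k`. -/
def Chr (k : NField) : Type := k.Gal →* (Qlb ℓ)ˣ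

/-- the value of a character -/
noncomputable def Chr.val {k : NField} (χ : Chr ℓ k) (g : k.Gal) : Qlb ℓ :=
  ((@id (k.Gal →* (Qlb ℓ)ˣ) χ) g : (Qlb ℓ)ˣ)

/-- the restriction of a character of the absolute Galois group of `ℚ` -/
noncomputable def Chr.at (δ : Chr ℓ ratField) {k : NField} (g : k.Gal) : Qlb ℓ :=
  δ.val (NField.incl (k := ratField) bot_le g)

/-- The character has finite order: it is trivial over some finite extension. -/
def Chr.FiniteOrder {L : NField} (ψ : Chr ℓ L) : Prop :=
  ∃ (K : NField) (h : L.F ≤ K.F), ∀ u : K.Gal, ψ.val (NField.incl h u) = 1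

/-- the determinant -/
noncomputable def detR {k : NField} (R : LRep ℓ k) (g : k.Gal) : Qlb ℓ := LinearMap.det (R.act g)

variable (ℓ) in
/-- **The theorem of Tate**: `H²(Gal, ℚ/ℤ) = 0` for the absolute Galois groups of number fields `L`, for
cocycles with values `1` and `-1`. Every such continuous cocycle `c` (invariant under the Galois group
of some field `K`, normal over `ℚ`) is the coboundary of a continuous function `μ` with values in the
roots of unity. -/
def TateTheorem : Prop :=
  ∀ (L K : NField) (h : L.F ≤ K.F), K.F.fixingSubgroup.Normal → ∀ c : L.Gal → L.Gal → Qlb ℓ,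
    (∀ a b, c a b = 1 ∨ c a b = -1) →
    (∀ a b d, c b d * c a (b * d) = c a b * c (a * b) d) →
    (∀ (a b : L.Gal) (u v : K.Gal), c (a * NField.incl h u) (b * NField.incl h v) = c a b) →
    ∃ μ : L.Gal → Qlb ℓ, (∀ a, ∃ n : ℕ, 0 < n ∧ μ a ^ n = 1) ∧
      (∀ a b, μ a * μ b = c a b * μ (a * b)) ∧
        ∃ (K' : NField) (h' : L.F ≤ K'.F), ∀ (a : L.Gal) (u : K'.Gal),
          μ (a * NField.incl h' u) = μ a

/-- The determinants of the representations of the newforms (of parallel weight two with trivial central
character) are the restrictions of the character `δ` of the absolute Galois group of `ℚ` (the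
cyclotomic character or its inverse). -/
def HasDet (𝒩 : Newforms ℓ) (δ : Chr ℓ ratField) : Prop :=
  ∀ k : NField, k.IsTotReal → ∀ (f : 𝒩.New k) (τ : 𝒩.M f →+* Qlb ℓ) (g : k.Gal),
    detR (𝒩.ρ f τ) g = δ.at g

/-- The representation `R` occurs potentially in abelian varieties: over some finite extension it occurs
in the Tate module of some abelian variety. -/
def OccursPot (𝒜 : AbVars ℓ) {L : NField} (R : LRep ℓ L) : Prop :=
  ∃ (K : NField) (h : L.F ≤ K.F) (B : 𝒜.AV K), Occurs (res h R) (𝒜.V B)

/-- **Modularity over `ℚ`** (Khare, Wintenberger, Kisin; Shimura): a representation of the absolute Galois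
group of `ℚ` which is potentially isomorphic to the representation of a newform (over any totally real
field) is modular up to a twist of finite order and occurs potentially in abelian varieties (quotients of
the Jacobians of modular curves). -/
def ModularityOverRat (𝒜 : AbVars ℓ) (𝒩 : Newforms ℓ) : Prop :=
  ∀ k : NField, k.IsTotReal → ∀ (f : 𝒩.New k) (τ : 𝒩.M f →+* Qlb ℓ) (R : LRep ℓ ratField),
    PotIsom R (𝒩.ρ f τ) → OccursPot 𝒜 R

/-- `k` is a Galois extension of `L` with solvable Galois group. -/
def IsSolvableOver (L k : NField) : Prop :=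
  L.F ≤ k.F ∧ ∃ _ : (k.F.fixingSubgroup.subgroupOf L.F.fixingSubgroup).Normal,
    Group.IsSolvable (L.F.fixingSubgroup ⧸ k.F.fixingSubgroup.subgroupOf L.F.fixingSubgroup)

/-- **Solvable descent** (Langlands; Carayol): let `k` be a totally real solvable extension of a field `L`
of odd degree. A representation of the Galois group of `L` which is potentially isomorphic to the
representation of a newform over `k` is automorphic, and so it occurs potentially in abelian varieties
(quotients of the Jacobians of Shimura curves over `L`). -/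
def SolvableDescent (𝒜 : AbVars ℓ) (𝒩 : Newforms ℓ) : Prop :=
  ∀ L k : NField, k.IsTotReal → Odd (Module.finrank ℚ L.F) → IsSolvableOver L k →
    ∀ (f : 𝒩.New k) (τ : 𝒩.M f →+* Qlb ℓ) (R : LRep ℓ L), PotIsom R (𝒩.ρ f τ) → OccursPot 𝒜 R

/-- The newform `f` over `k` (without complex multiplication) is invariant: it is potentially invariant
under the Galois group of `ℚ`, or of a field `L` of odd degree over which `k` is a solvable Galois
extension (if `k` is a Galois extension of `ℚ`, these are the fixed fields of the solvable subgroups of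
odd index of its Galois group, for instance of the Sylow `2`-subgroups). -/
def IsInvariantForm (𝒩 : Newforms ℓ) {k : NField} (f : 𝒩.New k) : Prop :=
  ∃ τ : 𝒩.M f →+* Qlb ℓ, StronglyIrr (𝒩.ρ f τ) ∧ (PotInvariant ratField (𝒩.ρ f τ) ∨
    ∃ L : NField, Odd (Module.finrank ℚ L.F) ∧ IsSolvableOver L k ∧ PotInvariant L (𝒩.ρ f τ))

/-- The representation `R` of the Galois group of `L` of dimension two extends the representation `R₀`
potentially: the two are potentially isomorphic, and the determinant of `R` is the product of `δ` and
of a character `ψ` of finite order. -/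
structure PotExtends (δ : Chr ℓ ratField) {L k : NField} (R : LRep ℓ L) (R₀ : LRep ℓ k) :
    Prop where
  dim : R.dim = 2
  isom : PotIsom R R₀
  det : ∃ ψ : Chr ℓ L, ψ.FiniteOrder ∧ ∀ g, detR R g = ψ.val g * δ.at g

/-- The number field `L₀` is the field of invariance of the representation `R`: it is contained in `k`, and
`R` is potentially invariant under the Galois group of `L` exactly if `L` contains `L₀`. -/
def IsFieldOfInvariance (L₀ : NField) {k : NField} (R : LRep ℓ k) : Prop :=
  L₀.F ≤ k.F ∧ ∀ L : NField, PotInvariant L R ↔ L₀.F ≤ L.F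

/-- The representations of newforms have fields of invariance, and these agree for potentially
isomorphic representations. -/
def FieldsOfInvariance (𝒩 : Newforms ℓ) : Prop :=
  ∀ (k : NField) (f : 𝒩.New k) (τ : 𝒩.M f →+* Qlb ℓ), ∃ L₀ : NField,
    IsFieldOfInvariance L₀ (𝒩.ρ f τ) ∧
    ∀ (k₂ : NField) (f₂ : 𝒩.New k₂) (τ₂ : 𝒩.M f₂ →+* Qlb ℓ), PotIsom (𝒩.ρ f τ) (𝒩.ρ f₂ τ₂) →
      IsFieldOfInvariance L₀ (𝒩.ρ f₂ τ₂)

/-- The representation of the newform `f` without complex multiplication is potentially invariant under
the Galois group of `L` if and only if it extends potentially, and the abelian variety attached to `f`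
exists if and only if the extension occurs potentially in abelian varieties. -/
def ExtensionCriterion (𝒜 : AbVars ℓ) (𝒩 : Newforms ℓ) (δ : Chr ℓ ratField)
    (L : NField) : Prop :=
  ∀ k : NField, k.IsTotReal → ∀ (f : 𝒩.New k) (τ : 𝒩.M f →+* Qlb ℓ), StronglyIrr (𝒩.ρ f τ) →
    (PotInvariant L (𝒩.ρ f τ) ↔ ∃ R : LRep ℓ L, PotExtends δ R (𝒩.ρ f τ)) ∧
    ∀ R : LRep ℓ L, PotIsom R (𝒩.ρ f τ) → (HasAV 𝒜 𝒩 f ↔ OccursPot 𝒜 R)

/-- The abelian varieties attached to the invariant newforms exist, with endomorphism algebra `M_f`. -/
def InvariantHaveAV (𝒜 : AbVars ℓ) (𝒩 : Newforms ℓ) : Prop :=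
  ∀ k : NField, k.IsTotReal → ∀ f : 𝒩.New k, IsInvariantForm 𝒩 f → HasAVWithEnd 𝒜 𝒩 f

/-- The remaining case of Q1: let `k` be a totally real field of even degree which contains `L` and `f` a
newform of level one over `k` which is commensurable neither with a newform covered by the theorem of
Zhang nor with an invariant newform (over any totally real field); then the representation of `f`
occurs potentially in abelian varieties. -/
def RemainingNotInvariant (𝒜 : AbVars ℓ) (𝒩 : Newforms ℓ) (L : NField) : Prop :=
  ∀ k : NField, k.IsTotReal → L.F ≤ k.F → Even (Module.finrank ℚ k.F) → ∀ f : 𝒩.New k,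
    (∀ v, 𝒩.level f v = 0) →
    (∀ k₂ : NField, k₂.IsTotReal → ∀ g : 𝒩.New k₂, Commensurable 𝒩 f g →
      ¬ IsZhang 𝒩 g ∧ ¬ IsInvariantForm 𝒩 g) →
    OccursPotentially 𝒜 𝒩 f

end Pool.Agent.J4.H28.PI
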