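import Mathlib

/-!
# Extension of an invariant two-dimensional representation

`U` is a normal subgroup of `G` and `ρ` an irreducible two-dimensional representation of `U` which is
isomorphic to all its conjugates by elements of `G`, and whose determinant extends to `G`. If certain
`±1`-valued two-cocycles on `G` are trivial in the multiplicative group of the field, then `ρ` extends,
on a smaller subgroup, to a representation of `G`.
-/

set_option autoImplicit false

namespace Pool.Agent.J4.H28.PI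

variable {E : Type*} [Field E] [IsAlgClosed E] {W : Type*} [AddCommGroup W] [Module E W]
  [FiniteDimensional E W] {G : Type*} [Group G]

theorem schur {S : Type*} {ρ : S → W ≃ₗ[E] W} (hne : ∃ x : W, x ≠ 0)
    (hirr : ∀ P : Submodule E W, (∀ s, ∀ x ∈ P, ρ s x ∈ P) → P = ⊥ ∨ P = ⊤)
    (T : Module.End E W) (hT : ∀ s x, T (ρ s x) = ρ s (T x)) : ∃ c : E, ∀ x, T x = c • x := by
  have : Nontrivial W := by
    obtain ⟨x, hx⟩ := hne
    exact ⟨⟨x, 0, hx⟩⟩
  obtain ⟨c, hc⟩ := Module.End.exists_eigenvalue T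
  refine ⟨c, fun x => ?_⟩
  have h1 : T.eigenspace c = ⊥ ∨ T.eigenspace c = ⊤ := by
    refine hirr _ fun s x hx => ?_
    rw [Module.End.mem_eigenspace_iff] at hx ⊢
    rw [hT, hx, map_smul]
  rcases h1 with h1 | h1
  · exact absurd h1 hc
  · have h2 : x ∈ T.eigenspace c := h1 ▸ Submodule.mem_top
    exact Module.End.mem_eigenspace_iff.1 h2

omit [IsAlgClosed E] [FiniteDimensional E W] in
theorem det_smul_one (h2 : Module.finrank E W = 2) {T : W ≃ₗ[E] W} {c : E}
    (h : ∀ x, T x = c • x) (hd : LinearEquiv.det T = 1) : c = 1 ∨ c = -1 := by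
  have h1 : (T : W →ₗ[E] W) = c • LinearMap.id := by
    ext x
    simpa using h x
  have h3 : LinearMap.det (T : W →ₗ[E] W) = 1 := by
    rw [← LinearEquiv.coe_det, hd, Units.val_one]
  rw [h1, LinearMap.det_smul, h2, LinearMap.det_id, mul_one] at h3
  exact sq_eq_one_iff_of_side_cond h3
where
  sq_eq_one_iff_of_side_cond {c : E} (h : c ^ 2 = 1) : c = 1 ∨ c = -1 := by
    have h1 : (c - 1) * (c + 1) = 0 := by linear_combination h
    rcases mul_eq_zero.1 h1 with h | h
    · exact Or.inl (sub_eq_zero.1 h)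
    · exact Or.inr (eq_neg_of_add_eq_zero_left h)

variable {U : Subgroup G} [U.Normal] {ρ : U →* (W ≃ₗ[E] W)} {δ : G →* Eˣ}

/-- the conjugating operators can be normalised -/
theorem exists_normalised (h2 : Module.finrank E W = 2) (g : G)
    (h : ∃ φ : W ≃ₗ[E] W, ∀ u : U, φ * ρ u = ρ (MulAut.conjNormal g u) * φ) :
    ∃ B : W ≃ₗ[E] W, LinearEquiv.det B = δ g ∧
      ∀ u : U, B * ρ u = ρ (MulAut.conjNormal g u) * B := by
  obtain ⟨φ, hφ⟩ := h
  obtain ⟨a, ha⟩ := IsAlgClosed.exists_pow_nat_eq ((δ g / LinearEquiv.det φ : Eˣ) : E)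
    (n := 2) (by norm_num)
  have ha0 : a ≠ 0 := by
    rintro rfl
    rw [zero_pow two_ne_zero] at ha
    exact (Units.ne_zero _) ha.symm
  have hmul : ∀ x, (LinearEquiv.smulOfNeZero E W a ha0) x = a • x := fun x => rfl
  refine ⟨LinearEquiv.smulOfNeZero E W a ha0 * φ, ?_, fun u => ?_⟩
  · rw [map_mul]
    have h3 : LinearEquiv.det (LinearEquiv.smulOfNeZero E W a ha0) = δ g / LinearEquiv.det φ := by
      ext
      rw [LinearEquiv.coe_det]
      have h1 : ((LinearEquiv.smulOfNeZero E W a ha0 : W ≃ₗ[E] W) : W →ₗ[E] W) =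
          a • LinearMap.id := by
        ext x
        rfl
      rw [h1, LinearMap.det_smul, h2, LinearMap.det_id, mul_one, ha]
    rw [h3, div_mul_cancel]
  · rw [mul_assoc, hφ u]
    ext x
    simp only [LinearEquiv.mul_apply, hmul, map_smul]

/-- **The extension.** -/
theorem extend (h2 : Module.finrank E W = 2) (hne : ∃ x : W, x ≠ 0)
    (hirr : ∀ P : Submodule E W, (∀ u : U, ∀ x ∈ P, ρ u x ∈ P) → P = ⊥ ∨ P = ⊤)
    (hdet : ∀ u : U, LinearEquiv.det (ρ u) = δ u)
    (hinv : ∀ g : G, ∃ φ : W ≃ₗ[E] W, ∀ u : U, φ * ρ u = ρ (MulAut.conjNormal g u) * φ)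
    (P : Subgroup G → Prop)
    (hT : ∀ c : G → G → E, (∀ g h, c g h = 1 ∨ c g h = -1) →
      (∀ g h k, c h k * c g (h * k) = c g h * c (g * h) k) →
      (∀ g h, ∀ u ∈ U, ∀ v ∈ U, c (g * u) (h * v) = c g h) →
      ∃ μ : G → E, (∀ g, μ g ≠ 0) ∧ (∀ g h, μ g * μ h = c g h * μ (g * h)) ∧
        ∃ U', P U' ∧ ∀ g, ∀ u ∈ U', μ (g * u) = μ g) :
    ∃ R : G →* Module.End E W, ∃ U', P U' ∧ (∀ u : U, (u : G) ∈ U' → ∀ x, R u x = ρ u x) ∧
      ∃ ψ : G →* Eˣ, (∀ u ∈ U', ψ u = 1) ∧ ∀ g, LinearMap.det (R g) = ψ g * δ g := by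
  classical
  choose B hB1 hB2 using fun g => exists_normalised (δ := δ) h2 g (hinv g)
  -- the section
  let s : G → G := fun g => Quotient.out (g : G ⧸ U)
  have hs : ∀ g, (s g)⁻¹ * g ∈ U := fun g => QuotientGroup.eq.1 (QuotientGroup.out_eq' _)
  have hs2 : ∀ g, ∀ v ∈ U, s (g * v) = s g := by
    intro g v hv
    have : ((g * v : G) : G ⧸ U) = (g : G ⧸ U) := by
      rw [QuotientGroup.mk_mul_of_mem _ hv]
    show Quotient.out ((g * v : G) : G ⧸ U) = Quotient.out (g : G ⧸ U)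
    rw [this]
  let A : G → (W ≃ₗ[E] W) := fun g => B (s g) * ρ ⟨(s g)⁻¹ * g, hs g⟩
  have hA1 : ∀ g, LinearEquiv.det (A g) = δ g := by
    intro g
    show LinearEquiv.det (B (s g) * ρ ⟨(s g)⁻¹ * g, hs g⟩) = δ g
    rw [map_mul, hB1, hdet, ← map_mul, mul_inv_cancel_left]
  have hA2 : ∀ g, ∀ u : U, A g * ρ u = ρ (MulAut.conjNormal g u) * A g := by
    intro g u
    show B (s g) * ρ ⟨(s g)⁻¹ * g, hs g⟩ * ρ u = ρ (MulAut.conjNormal g u) *
      (B (s g) * ρ ⟨(s g)⁻¹ * g, hs g⟩)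
    set n : U := ⟨(s g)⁻¹ * g, hs g⟩ with hn
    have e1 : ρ n * ρ u = ρ (n * u * n⁻¹) * ρ n := by
      rw [← map_mul, ← map_mul, inv_mul_cancel_right]
    have e2 : MulAut.conjNormal (s g) (n * u * n⁻¹) = MulAut.conjNormal g u := by
      apply Subtype.ext
      rw [MulAut.conjNormal_apply, MulAut.conjNormal_apply]
      push_cast
      rw [hn]
      group
    rw [mul_assoc, e1, ← mul_assoc, hB2, e2, mul_assoc]
  have hA3 : ∀ g, ∀ v : U, A (g * v) = A g * ρ v := by
    intro g v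
    show B (s (g * v)) * ρ ⟨(s (g * v))⁻¹ * (g * v), hs (g * v)⟩ =
      B (s g) * ρ ⟨(s g)⁻¹ * g, hs g⟩ * ρ v
    rw [mul_assoc, ← map_mul]
    have e1 : s (g * v) = s g := hs2 g v v.2
    have e2 : (⟨(s (g * v))⁻¹ * (g * v), hs (g * v)⟩ : U) = ⟨(s g)⁻¹ * g, hs g⟩ * v := by
      apply Subtype.ext
      push_cast
      rw [e1, mul_assoc]
    rw [e2, e1]
  -- the cocycle
  have hc : ∀ g h, ∃ c : E, (c = 1 ∨ c = -1) ∧ ∀ x, A g (A h x) = c • A (g * h) x := by
    intro g h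
    set X : W ≃ₗ[E] W := (A (g * h))⁻¹ * (A g * A h) with hX
    have hcomm : ∀ u : U, X * ρ u = ρ u * X := by
      intro u
      have e1 : A g * A h * ρ u = ρ (MulAut.conjNormal (g * h) u) * (A g * A h) := by
        rw [mul_assoc, hA2 h u, ← mul_assoc, hA2 g, map_mul, MulAut.mul_apply, mul_assoc]
      have e2 : (A (g * h))⁻¹ * ρ (MulAut.conjNormal (g * h) u) = ρ u * (A (g * h))⁻¹ := by
        rw [inv_mul_eq_iff_eq_mul, ← mul_assoc, hA2, mul_inv_cancel_right]
      rw [hX, mul_assoc, e1, ← mul_assoc, e2, mul_assoc]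
    obtain ⟨c, hc⟩ := schur (ρ := fun u : U => ρ u) hne hirr (X : W →ₗ[E] W) (fun u x => by
      have := congrArg (fun f : W ≃ₗ[E] W => f x) (hcomm u)
      exact this)
    have hdX : LinearEquiv.det X = 1 := by
      rw [hX, map_mul, map_mul, map_inv, hA1, hA1, hA1, map_mul, inv_mul_cancel]
    refine ⟨c, det_smul_one h2 hc hdX, fun x => ?_⟩
    have h3 : A (g * h) (X x) = A g (A h x) := by
      have : A (g * h) * X = A g * A h := by rw [hX, mul_inv_cancel_left]
      have := congrArg (fun f : W ≃ₗ[E] W => f x) this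
      simpa only [LinearEquiv.mul_apply] using this
    have h4 : X x = c • x := hc x
    rw [← h3, h4, map_smul]
  choose c hc1 hc2 using hc
  obtain ⟨x₀, hx₀⟩ := hne
  have hAne : ∀ g, A g x₀ ≠ 0 := fun g h => hx₀ ((A g).map_eq_zero_iff.1 h)
  have hcoc : ∀ g h k, c h k * c g (h * k) = c g h * c (g * h) k := by
    intro g h k
    have e1 : A g (A h (A k x₀)) = (c h k * c g (h * k)) • A (g * (h * k)) x₀ := by
      rw [hc2 h k, map_smul, hc2 g (h * k), smul_smul]
    have e2 : A g (A h (A k x₀)) = (c g h * c (g * h) k) • A (g * h * k) x₀ := by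
      rw [hc2 g h, hc2 (g * h) k, smul_smul]
    rw [mul_assoc g h k] at e2
    exact smul_left_injective E (hAne _) (e1.symm.trans e2)
  have hcinv : ∀ g h, ∀ u ∈ U, ∀ v ∈ U, c (g * u) (h * v) = c g h := by
    intro g h u hu v hv
    have e1 : A (g * u) = A g * ρ ⟨u, hu⟩ := hA3 g ⟨u, hu⟩
    have e2 : A (h * v) = A h * ρ ⟨v, hv⟩ := hA3 h ⟨v, hv⟩
    have e3 : ρ ⟨u, hu⟩ * A h = A h * ρ (MulAut.conjNormal h⁻¹ ⟨u, hu⟩) := by
      rw [hA2, ← MulAut.mul_apply, ← map_mul, mul_inv_cancel, map_one, MulAut.one_apply]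
    have e4 : A (g * u * (h * v)) = A (g * h) * ρ (MulAut.conjNormal h⁻¹ ⟨u, hu⟩ * ⟨v, hv⟩) := by
      rw [← hA3]
      congr 1
      push_cast
      rw [MulAut.conjNormal_apply]
      group
    have e5 : A (g * u) * A (h * v) =
        A g * A h * ρ (MulAut.conjNormal h⁻¹ ⟨u, hu⟩ * ⟨v, hv⟩) := by
      rw [e1, e2, map_mul]
      calc A g * ρ ⟨u, hu⟩ * (A h * ρ ⟨v, hv⟩) = A g * (ρ ⟨u, hu⟩ * A h) * ρ ⟨v, hv⟩ := by
            simp only [mul_assoc]
        _ = _ := by rw [e3]; simp only [mul_assoc]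
    set y := ρ (MulAut.conjNormal h⁻¹ ⟨u, hu⟩ * ⟨v, hv⟩) x₀ with hy
    have hy0 : y ≠ 0 := fun h => hx₀ ((ρ _).map_eq_zero_iff.1 h)
    have e6 := congrArg (fun f : W ≃ₗ[E] W => f x₀) e5
    simp only [LinearEquiv.mul_apply] at e6
    rw [hc2, e4, ← hy, LinearEquiv.mul_apply, ← hy, hc2] at e6
    exact smul_left_injective E (fun h' => hy0 ((A (g * h)).map_eq_zero_iff.1 h')) e6
  obtain ⟨μ, hμ0, hμ, U', hU', hμU⟩ := hT c hc1 hcoc hcinv
  have hcc : ∀ g h, c g h * c g h = 1 := fun g h => by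
    rcases hc1 g h with h | h <;> rw [h] <;> ring
  -- the representation
  let R : G → Module.End E W := fun g => μ g • (A g : W →ₗ[E] W)
  have hR : ∀ g x, R g x = μ g • A g x := fun _ _ => rfl
  have hRm : ∀ g h x, R g (R h x) = R (g * h) x := by
    intro g h x
    rw [hR, hR, hR, map_smul, hc2, smul_smul, smul_smul,
      show μ g * μ h * c g h = c g h * (μ g * μ h) by ring, hμ, ← mul_assoc, hcc, one_mul]
  have hR1 : ∀ x, R 1 x = x := by
    intro x
    have h1 := hRm 1 1 x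
    rw [mul_one] at h1
    have hinj : Function.Injective (R 1) := by
      intro a b hab
      rw [hR, hR] at hab
      exact (A 1).injective (smul_right_injective W (hμ0 1) hab)
    exact hinj h1
  refine ⟨{ toFun := R, map_one' := ?_, map_mul' := ?_ }, U', hU', ?_, ?_⟩
  · ext x
    rw [hR1]
    rfl
  · intro g h
    ext x
    exact (hRm g h x).symm
  · intro u hu x
    have h1 : μ (1 * (u : G)) = μ 1 := hμU 1 u hu
    have h3 : A (1 * (u : G)) = A 1 * ρ u := hA3 1 u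
    rw [one_mul] at h1 h3
    show R u x = ρ u x
    rw [hR, h1, h3]
    exact hR1 (ρ u x)
  · have hμ2 : ∀ g h, μ g ^ 2 * μ h ^ 2 = μ (g * h) ^ 2 := by
      intro g h
      have := hμ g h
      calc μ g ^ 2 * μ h ^ 2 = (μ g * μ h) ^ 2 := by ring
        _ = (c g h * c g h) * μ (g * h) ^ 2 := by rw [this]; ring
        _ = _ := by rw [hcc, one_mul]
    have hμ1 : μ 1 ^ 2 = 1 := by
      have h1 := hμ2 1 1
      rw [mul_one] at h1
      exact mul_left_cancel₀ (pow_ne_zero 2 (hμ0 1)) (h1.trans (mul_one _).symm)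
    refine ⟨{ toFun := fun g => Units.mk0 (μ g ^ 2) (pow_ne_zero 2 (hμ0 g)), map_one' := ?_,
              map_mul' := ?_ }, ?_, ?_⟩
    · ext
      simpa using hμ1
    · intro g h
      ext
      simpa using (hμ2 g h).symm
    · intro u hu
      ext
      have h1 : μ (1 * u) = μ 1 := hμU 1 u hu
      rw [one_mul] at h1
      simpa [h1] using hμ1
    · intro g
      show LinearMap.det (μ g • (A g : W →ₗ[E] W)) = _
      rw [LinearMap.det_smul, h2, ← LinearEquiv.coe_det, hA1]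
      rfl

end Pool.Agent.J4.H28.PI
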