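import Pool.Agent.J4.H28.PI.Main

/-!
# The field of invariance
-/

set_option autoImplicit false

namespace Pool.Agent.J4.H28.PI

open Pool.Agent.J4.H9.HM

variable {ℓ : ℕ} [Fact ℓ.Prime]

theorem ρ_bijective {Γ : Type} [Group Γ] (R : GRep (Qlb ℓ) Γ) (a : Γ) :
    Function.Bijective (R.ρ a) := by
  refine Function.bijective_iff_has_inverse.2 ⟨R.ρ a⁻¹, fun x => ?_, fun x => ?_⟩
  · rw [← Module.End.mul_apply, ← map_mul, inv_mul_cancel, map_one, Module.End.one_apply]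
  · rw [← Module.End.mul_apply, ← map_mul, mul_inv_cancel, map_one, Module.End.one_apply]

/-- the automorphisms which fix the representation potentially -/
noncomputable def stab {k : NField} (R : LRep ℓ k) : Subgroup (Qb ≃ₐ[ℚ] Qb) where
  carrier := {g | ∃ (K : NField) (h : k.F ≤ K.F), PotFixes₀ R g K h}
  mul_mem' := by
    rintro a b ⟨K₁, h₁, φ, hφ, hφ'⟩ ⟨K₂, h₂, ψ, hψ, hψ'⟩
    obtain ⟨K, hK₁, hK₂, hn⟩ := exists_normal₂ K₁ K₂
    refine ⟨K, h₁.trans hK₁, φ ∘ₗ ψ, hφ.comp hψ, fun u u' hu x => ?_⟩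
    let w : K.Gal := ⟨b * u.1 * b⁻¹, mem_conj hn b u.2⟩
    have e1 : ψ (R.ρ (NField.incl (h₂.trans hK₂) u) x) =
        R.ρ (NField.incl (h₂.trans hK₂) w) (ψ x) :=
      hψ' (NField.incl hK₂ u) (NField.incl hK₂ w) rfl x
    have e2 : φ (R.ρ (NField.incl (h₁.trans hK₁) w) (ψ x)) =
        R.ρ (NField.incl (h₁.trans hK₁) u') (φ (ψ x)) :=
      hφ' (NField.incl hK₁ w) (NField.incl hK₁ u') (by
        show u'.1 = a * (b * u.1 * b⁻¹) * a⁻¹
        rw [hu]
        group) (ψ x)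
    show φ (ψ (R.ρ (NField.incl (h₂.trans hK₂) u) x)) = R.ρ (NField.incl (h₁.trans hK₁) u') (φ (ψ x))
    rw [e1]
    exact e2
  one_mem' := ⟨k, le_rfl, LinearMap.id, Function.bijective_id, fun u u' hu x => by
    have : u' = u := Subtype.ext (by rw [hu, one_mul, inv_one, mul_one])
    rw [this]
    rfl⟩
  inv_mem' := by
    rintro a ⟨K₁, h₁, φ, hφ, hφ'⟩
    obtain ⟨K, hK₁, -, hn⟩ := exists_normal₂ K₁ K₁
    let e : R.W ≃ₗ[Qlb ℓ] R.W := LinearEquiv.ofBijective φ hφ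
    refine ⟨K, h₁.trans hK₁, e.symm.toLinearMap, e.symm.bijective, fun u u' hu x => ?_⟩
    show e.symm (R.ρ (NField.incl (h₁.trans hK₁) u) x) =
      R.ρ (NField.incl (h₁.trans hK₁) u') (e.symm x)
    rw [LinearEquiv.symm_apply_eq]
    have e2 : e (R.ρ (NField.incl (h₁.trans hK₁) u') (e.symm x)) =
        R.ρ (NField.incl (h₁.trans hK₁) u) (e (e.symm x)) :=
      hφ' (NField.incl hK₁ u') (NField.incl hK₁ u) (by
        show u.1 = a * u'.1 * a⁻¹
        rw [hu]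
        group) (e.symm x)
    rw [e2, LinearEquiv.apply_symm_apply]

theorem le_stab {k : NField} (R : LRep ℓ k) : k.F.fixingSubgroup ≤ stab R := by
  intro g hg
  obtain ⟨K, hK, -, hn⟩ := exists_normal₂ k k
  let a : k.Gal := ⟨g, hg⟩
  refine ⟨K, hK, R.ρ a, ρ_bijective R a, fun u u' hu x => ?_⟩
  have e1 : a * NField.incl hK u = NField.incl hK u' * a := by
    apply Subtype.ext
    show g * u.1 = u'.1 * g
    rw [hu, inv_mul_cancel_right]
  show R.ρ a (R.ρ (NField.incl hK u) x) = R.ρ (NField.incl hK u') (R.ρ a x)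
  rw [← Module.End.mul_apply, ← map_mul, e1, map_mul, Module.End.mul_apply]

theorem potInvariant_iff {L k : NField} {R : LRep ℓ k} :
    PotInvariant L R ↔ L.F.fixingSubgroup ≤ stab R :=
  ⟨fun h g hg => by
    obtain ⟨K, hK, hK'⟩ := h ⟨g, hg⟩
    exact ⟨K, hK, potFixes_iff.1 hK'⟩, fun h g => by
    obtain ⟨K, hK, hK'⟩ := h g.2
    exact ⟨K, hK, potFixes_iff.2 hK'⟩⟩

instance : IsGalois ℚ Qb where

/-- **The smallest field of invariance.** -/
theorem exists_smallest {k : NField} (R : LRep ℓ k) :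
    ∃ L₀ : NField, L₀.F ≤ k.F ∧ ∀ L : NField, PotInvariant L R ↔ L₀.F ≤ L.F := by
  have hkf := k.fin
  have hopen : IsOpen (k.F.fixingSubgroup : Set (Qb ≃ₐ[ℚ] Qb)) :=
    IntermediateField.fixingSubgroup_isOpen k.F
  have hclosed : IsClosed (stab R : Set (Qb ≃ₐ[ℚ] Qb)) :=
    Subgroup.isClosed_of_isOpen _ (Subgroup.isOpen_mono (le_stab R) hopen)
  have h1 : (IntermediateField.fixedField (stab R)).fixingSubgroup = stab R :=
    InfiniteGalois.fixingSubgroup_fixedField ⟨stab R, hclosed⟩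
  have h2 : IntermediateField.fixedField (stab R) ≤ k.F := by
    rw [← InfiniteGalois.fixedField_fixingSubgroup k.F, IntermediateField.le_iff_le, h1]
    exact le_stab R
  have hfin : FiniteDimensional ℚ (IntermediateField.fixedField (stab R)) :=
    FiniteDimensional.of_injective (IntermediateField.inclusion h2).toLinearMap
      (IntermediateField.inclusion h2).injective
  refine ⟨⟨IntermediateField.fixedField (stab R), hfin⟩, h2, fun L => ?_⟩
  rw [potInvariant_iff]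
  constructor
  · intro h
    show IntermediateField.fixedField (stab R) ≤ L.F
    rw [← InfiniteGalois.fixedField_fixingSubgroup L.F, IntermediateField.le_iff_le, h1]
    exact h
  · intro h
    rw [← h1]
    exact IntermediateField.fixingSubgroup_le h

/-- Potentially isomorphic representations have the same fields of invariance. -/
theorem PotIsom.invariant {k₁ k₂ L : NField} {R₁ : LRep ℓ k₁} {R₂ : LRep ℓ k₂}
    (h : PotIsom R₁ R₂) (hI : PotInvariant L R₁) : PotInvariant L R₂ := by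
  obtain ⟨K₀, h₁, h₂, e⟩ := h
  obtain ⟨e, he⟩ := isom_iff.1 e
  intro g
  obtain ⟨K₁, h, hF⟩ := hI g
  obtain ⟨φ, hφ, hφ'⟩ := potFixes_iff.1 hF
  obtain ⟨K, hK₀, hK₁, -⟩ := exists_normal₂ K₀ K₁
  refine ⟨K, h₂.trans hK₀, potFixes_iff.2 ⟨e.toLinearMap ∘ₗ φ ∘ₗ e.symm.toLinearMap,
    e.bijective.comp (hφ.comp e.symm.bijective), fun u u' hu x => ?_⟩⟩
  have e1 : ∀ (v : K.Gal) (y : R₁.W), e (R₁.ρ (NField.incl (h₁.trans hK₀) v) y) =
      R₂.ρ (NField.incl (h₂.trans hK₀) v) (e y) := fun v y => he (NField.incl hK₀ v) y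
  have e2 : e.symm (R₂.ρ (NField.incl (h₂.trans hK₀) u) x) =
      R₁.ρ (NField.incl (h₁.trans hK₀) u) (e.symm x) := by
    rw [LinearEquiv.symm_apply_eq, e1, LinearEquiv.apply_symm_apply]
  have e3 : φ (R₁.ρ (NField.incl (h₁.trans hK₀) u) (e.symm x)) =
      R₁.ρ (NField.incl (h₁.trans hK₀) u') (φ (e.symm x)) :=
    hφ' (NField.incl hK₁ u) (NField.incl hK₁ u') hu (e.symm x)
  show e (φ (e.symm (R₂.ρ (NField.incl (h₂.trans hK₀) u) x))) =
    R₂.ρ (NField.incl (h₂.trans hK₀) u') (e (φ (e.symm x)))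
  rw [e2, e3, e1]

theorem PotIsom.symm {k₁ k₂ : NField} {R₁ : LRep ℓ k₁} {R₂ : LRep ℓ k₂}
    (h : PotIsom R₁ R₂) : PotIsom R₂ R₁ := by
  obtain ⟨K₀, h₁, h₂, e⟩ := h
  exact ⟨K₀, h₂, h₁, e.symm⟩

end Pool.Agent.J4.H28.PI
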