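import Pool.Agent.J4.H28.PI.Field

/-!
# Abelian varieties attached to potentially invariant newforms
-/

set_option autoImplicit false

namespace Pool.Agent.J4.H28.PI

open Pool.Agent.J4.H9.HM

variable {ℓ : ℕ} [Fact ℓ.Prime] {𝒜 : AbVars ℓ} {𝒩 : Newforms ℓ}

/-- the abelian variety exists if and only if the extension occurs potentially in abelian varieties -/
theorem hasAV_iff (hA : 𝒜.IsKnown) {L k : NField} (hk : k.IsTotReal) {f : 𝒩.New k}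
    (hf : 𝒩.IsKnown 𝒜 f) {τ : 𝒩.M f →+* Qlb ℓ} {R : LRep ℓ L} (hR : PotIsom R (𝒩.ρ f τ)) :
    HasAV 𝒜 𝒩 f ↔ OccursPot 𝒜 R := by
  constructor
  · rintro ⟨A, hA'⟩
    obtain ⟨K, h₁, h₂, e⟩ := hR
    obtain ⟨B, hB⟩ := hA.ext k K h₂ A
    exact ⟨K, h₁, B, (occurs_right (occurs_res h₂ (hA'.occurs hf τ)) hB).of_isom e⟩
  · rintro ⟨K, h, B, hB⟩
    exact (attached_iff hA hk hf).2 (occurs hA hR h hB)

/-- **The abelian varieties attached to potentially invariant newforms.** -/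
theorem hasAV (hA : 𝒜.IsKnown) {δ : Chr ℓ ratField} (hδ : HasDet 𝒩 δ) (hT : TateTheorem ℓ)
    {L k : NField} (hk : k.IsTotReal) {f : 𝒩.New k} (hf : 𝒩.IsKnown 𝒜 f) {τ : 𝒩.M f →+* Qlb ℓ}
    (hM : ∀ R : LRep ℓ L, PotIsom R (𝒩.ρ f τ) → OccursPot 𝒜 R) (hs : StronglyIrr (𝒩.ρ f τ))
    (hI : PotInvariant L (𝒩.ρ f τ)) : HasAVWithEnd 𝒜 𝒩 f := by
  obtain ⟨R, hR⟩ := forward hT (hf.two τ) hs (hδ k hk f τ) hI
  exact ((pointwise hA hk hf).out 0 1).1 ((hasAV_iff hA hk hf hR.isom).2 (hM R hR.isom))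

/-- **The abelian varieties attached to invariant newforms.** -/
theorem invariant_hasAV (hA : 𝒜.IsKnown)
    (hN : ∀ k : NField, k.IsTotReal → ∀ f : 𝒩.New k, 𝒩.IsKnown 𝒜 f)
    {δ : Chr ℓ ratField} (hδ : HasDet 𝒩 δ) (hT : TateTheorem ℓ) (hM : ModularityOverRat 𝒜 𝒩)
    (hD : SolvableDescent 𝒜 𝒩) : InvariantHaveAV 𝒜 𝒩 := by
  rintro k hk f ⟨τ, hs, hI | ⟨L, hL, hLk, hI⟩⟩
  · exact hasAV hA hδ hT hk (hN k hk f) (fun R => hM k hk f τ R) hs hI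
  · exact hasAV hA hδ hT hk (hN k hk f) (fun R => hD L k hk hL hLk f τ R) hs hI

/-- **The remaining case of Q1.** -/
theorem remaining (hA : 𝒜.IsKnown)
    (hN : ∀ k : NField, k.IsTotReal → ∀ f : 𝒩.New k, 𝒩.IsKnown 𝒜 f)
    (hI : InvariantHaveAV 𝒜 𝒩) (hb : HasBaseChange 𝒩) (hZ : ZhangTheorem 𝒜 𝒩)
    {L : NField} (hL : L.IsTotReal) : Q1 𝒜 𝒩 ↔ RemainingNotInvariant 𝒜 𝒩 L := by
  have h13 : Q1 𝒜 𝒩 ↔ Remaining 𝒜 𝒩 L := (main hA hN hb hZ hL).out 1 3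
  rw [h13]
  constructor
  · intro h k hk hLk he f hl hz
    exact h k hk hLk he f hl fun k₂ hk₂ g hg => (hz k₂ hk₂ g hg).1
  · intro h k hk hLk he f hl hz
    by_cases hc : ∃ k₂ : NField, k₂.IsTotReal ∧ ∃ g : 𝒩.New k₂,
        Commensurable 𝒩 f g ∧ IsInvariantForm 𝒩 g
    · obtain ⟨k₂, hk₂, g, hg, hi⟩ := hc
      obtain ⟨A, hA', -⟩ := hI k₂ hk₂ g hi
      exact (attached_iff hA hk (hN k hk f)).1
        (commensurable_mp hA hk (hN k₂ hk₂ g) (hN k hk f) hg.symm ⟨A, hA'⟩)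
    · exact h k hk hLk he f hl fun k₂ hk₂ g hg =>
        ⟨hz k₂ hk₂ g hg, fun hi => hc ⟨k₂, hk₂, g, hg, hi⟩⟩

end Pool.Agent.J4.H28.PI
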