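import Pool.Agent.J4.H28.PI.Defs
import Pool.Agent.J4.H28.PI.Ext
import Pool.Agent.J4.H9.HM.Main

/-!
# Potentially invariant representations
-/

set_option autoImplicit false

namespace Pool.Agent.J4.H28.PI

open Pool.Agent.J4.H9.HM

noncomputable instance : IsAlgClosure ℚ Qb := by
  have h : IsAlgClosure ℚ (AlgebraicClosure ℚ) := AlgebraicClosure.instIsAlgClosure ℚ
  exact h

instance : Normal ℚ Qb := IsAlgClosure.normal ℚ Qb

instance (ℓ : ℕ) [Fact ℓ.Prime] : IsAlgClosed (Qlb ℓ) :=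
  (inferInstance : IsAlgClosed (AlgebraicClosure ℚ_[ℓ]))

/-- the field is normal over `ℚ` -/
def IsNormalField (K : IntermediateField ℚ Qb) : Prop :=
  @Normal ℚ K _ _ (IntermediateField.algebra' K)

theorem IsNormalField.normal {K : IntermediateField ℚ Qb} (h : IsNormalField K) :
    K.fixingSubgroup.Normal := by
  have h' : @Normal ℚ K _ _ (IntermediateField.algebra' K) := h
  rw [← @IntermediateField.restrictNormalHom_ker ℚ Qb _ _ _ K h']
  infer_instance

theorem exists_normal (A : IntermediateField ℚ Qb) [FiniteDimensional ℚ A] :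
    ∃ K : NField, A ≤ K.F ∧ IsNormalField K.F :=
  ⟨⟨IntermediateField.normalClosure ℚ A Qb, inferInstance⟩, A.le_normalClosure,
    normalClosure.normal ℚ A Qb⟩

theorem exists_normal₂ (K₁ K₂ : NField) :
    ∃ K : NField, K₁.F ≤ K.F ∧ K₂.F ≤ K.F ∧ IsNormalField K.F := by
  have := K₁.fin
  have := K₂.fin
  obtain ⟨K, h, hn⟩ := exists_normal (K₁.F ⊔ K₂.F)
  exact ⟨K, le_sup_left.trans h, le_sup_right.trans h, hn⟩

theorem mem_conj {K : NField} (hn : IsNormalField K.F) (g : Qb ≃ₐ[ℚ] Qb) {u : Qb ≃ₐ[ℚ] Qb}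
    (hu : u ∈ K.F.fixingSubgroup) : g * u * g⁻¹ ∈ K.F.fixingSubgroup :=
  hn.normal.conj_mem u hu g

/-- the restriction to a normal field -/
noncomputable def rst (K : IntermediateField ℚ Qb) (h : IsNormalField K) :
    (Qb ≃ₐ[ℚ] Qb) →* @AlgEquiv ℚ K K _ _ _ (IntermediateField.algebra' K)
      (IntermediateField.algebra' K) :=
  letI : Algebra ℚ K := IntermediateField.algebra' K
  haveI : Normal ℚ K := h
  AlgEquiv.restrictNormalHom K

theorem rst_ker (K : IntermediateField ℚ Qb) (h : IsNormalField K) :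
    (rst K h).ker = K.fixingSubgroup :=
  @IntermediateField.restrictNormalHom_ker ℚ Qb _ _ _ K h

variable {ℓ : ℕ} [Fact ℓ.Prime]

theorem res_act {k k' : NField} (h : k.F ≤ k'.F) (R : LRep ℓ k) (u : k'.Gal) (x : R.W) :
    (res h R).act u x = R.ρ (NField.incl h u) x := rfl

theorem incl_val {k k' : NField} (h : k.F ≤ k'.F) (u : k'.Gal) : (NField.incl h u).1 = u.1 := rfl

/-- the condition `PotFixes` for an automorphism of the field of algebraic numbers -/
def PotFixes₀ {k : NField} (R : LRep ℓ k) (g : Qb ≃ₐ[ℚ] Qb) (K : NField) (h : k.F ≤ K.F) : Prop :=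
  ∃ φ : R.W →ₗ[Qlb ℓ] R.W, Function.Bijective φ ∧
    ∀ u u' : K.Gal, u'.1 = g * u.1 * g⁻¹ →
      ∀ x, φ ((res h R).act u x) = (res h R).act u' (φ x)

theorem isConj_iff {L K : NField} {g : L.Gal} {u u' : K.Gal} :
    IsConj g u u' ↔ u'.1 = g.1 * u.1 * (g.1)⁻¹ := by
  constructor
  · intro h
    rw [eq_mul_inv_iff_mul_eq]
    exact AlgEquiv.ext fun x => h x
  · intro h x
    have h1 : u'.1 * g.1 = g.1 * u.1 := by rw [h, inv_mul_cancel_right]
    exact DFunLike.congr_fun h1 x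

theorem potFixes_iff {k L K : NField} {R : LRep ℓ k} {g : L.Gal} {h : k.F ≤ K.F} :
    PotFixes R g K h ↔ PotFixes₀ R g.1 K h :=
  ⟨fun ⟨φ, hφ, hφ'⟩ => ⟨φ, hφ, fun u u' hu => hφ' u u' (isConj_iff.2 hu)⟩,
    fun ⟨φ, hφ, hφ'⟩ => ⟨φ, hφ, fun u u' hu => hφ' u u' (isConj_iff.1 hu)⟩⟩

/-- a uniform field for all elements of the Galois group -/
theorem exists_uniform {L k : NField} {R : LRep ℓ k} (hR : PotInvariant L R) :
    ∃ (K : NField) (h : k.F ≤ K.F), L.F ≤ K.F ∧ IsNormalField K.F ∧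
      ∀ g : L.Gal, PotFixes₀ R g.1 K h := by
  classical
  obtain ⟨K₁, hk₁, hL₁, hn₁⟩ := exists_normal₂ k L
  have hf₁ := K₁.fin
  choose KK hk hK' using hR
  have hK : ∀ g : L.Gal, PotFixes₀ R g.1 (KK g) (hk g) := fun g => potFixes_iff.1 (hK' g)
  let F : (@AlgEquiv ℚ K₁.F K₁.F _ _ _ (IntermediateField.algebra' K₁.F) (IntermediateField.algebra' K₁.F)) → NField := fun σ =>
    if h : ∃ g : L.Gal, rst K₁.F hn₁ g.1 = σ then KK h.choose else K₁
  have hfin : ∀ σ, FiniteDimensional ℚ (F σ).F := fun σ => (F σ).fin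
  have hT : FiniteDimensional ℚ (K₁.F ⊔ ⨆ σ, (F σ).F : IntermediateField ℚ Qb) := by
    have : Finite (@AlgEquiv ℚ K₁.F K₁.F _ _ _ (IntermediateField.algebra' K₁.F)
        (IntermediateField.algebra' K₁.F)) := by
      have : @FiniteDimensional ℚ K₁.F _ _ (IntermediateField.algebra' K₁.F).toModule := hf₁
      infer_instance
    have := IntermediateField.finiteDimensional_iSup_of_finite (t := fun σ => (F σ).F)
    infer_instance
  obtain ⟨K, hKT, hn⟩ := exists_normal (K₁.F ⊔ ⨆ σ, (F σ).F)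
  have h1K : K₁.F ≤ K.F := le_sup_left.trans hKT
  refine ⟨K, hk₁.trans h1K, hL₁.trans h1K, hn, fun g => ?_⟩
  -- the representative
  have hex : ∃ g' : L.Gal, rst K₁.F hn₁ g'.1 =
      rst K₁.F hn₁ g.1 := ⟨g, rfl⟩
  set s : L.Gal := hex.choose with hs
  have hsg : rst K₁.F hn₁ s.1 = rst K₁.F hn₁ g.1 :=
    hex.choose_spec
  have hKs : (KK s).F ≤ K.F := by
    have h1 : F (rst K₁.F hn₁ g.1) = KK s := by
      show dite _ _ _ = _
      rw [dif_pos hex]
    have h2 : (F (rst K₁.F hn₁ g.1)).F ≤ ⨆ σ, (F σ).F :=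
      le_iSup (fun σ => (F σ).F) _
    rw [h1] at h2
    exact h2.trans (le_sup_right.trans hKT)
  have hn1 : (s.1)⁻¹ * g.1 ∈ K₁.F.fixingSubgroup := by
    rw [← rst_ker K₁.F hn₁, MonoidHom.mem_ker, map_mul, map_inv, hsg, inv_mul_cancel]
  have hn2 : (s.1)⁻¹ * g.1 ∈ k.F.fixingSubgroup :=
    IntermediateField.fixingSubgroup_le hk₁ hn1
  let n : k.Gal := ⟨(s.1)⁻¹ * g.1, hn2⟩
  obtain ⟨φ, hφ, hφ'⟩ := hK s
  refine ⟨φ ∘ₗ R.ρ n, ?_, ?_⟩
  · have hb : Function.Bijective (R.ρ n) := by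
      refine Function.bijective_iff_has_inverse.2 ⟨R.ρ n⁻¹, fun x => ?_, fun x => ?_⟩
      · rw [← Module.End.mul_apply, ← map_mul, inv_mul_cancel, map_one, Module.End.one_apply]
      · rw [← Module.End.mul_apply, ← map_mul, mul_inv_cancel, map_one, Module.End.one_apply]
    exact hφ.comp hb
  · intro u u' hu x
    let w : K.Gal := ⟨((s.1)⁻¹ * g.1) * u.1 * ((s.1)⁻¹ * g.1)⁻¹, mem_conj hn _ u.2⟩
    have e1 : n * NField.incl (hk₁.trans h1K) u =
        NField.incl ((hk s).trans hKs) w * n := by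
      apply Subtype.ext
      show ((s.1)⁻¹ * g.1) * u.1 = ((s.1)⁻¹ * g.1) * u.1 * ((s.1)⁻¹ * g.1)⁻¹ * ((s.1)⁻¹ * g.1)
      rw [inv_mul_cancel_right]
    have e2 := hφ' (NField.incl hKs w) (NField.incl hKs u') (by
      show u'.1 = s.1 * (((s.1)⁻¹ * g.1) * u.1 * ((s.1)⁻¹ * g.1)⁻¹) * (s.1)⁻¹
      rw [hu]
      group) (R.ρ n x)
    rw [res_act, res_act] at e2 ⊢
    rw [LinearMap.comp_apply, LinearMap.comp_apply, ← Module.End.mul_apply (R.ρ n), ← map_mul,
      e1, map_mul, Module.End.mul_apply]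
    exact e2

/-- **A potentially invariant representation extends potentially.** -/
theorem forward {δ : Chr ℓ ratField} (hT : TateTheorem ℓ) {L k : NField} {R : LRep ℓ k}
    (h2 : R.dim = 2) (hirr : StronglyIrr R)
    (hdet : ∀ g : k.Gal, detR R g = δ.at g)
    (hR : PotInvariant L R) : ∃ R' : LRep ℓ L, PotExtends δ R' R := by
  classical
  obtain ⟨K, hk, hL, hn, hK⟩ := exists_uniform hR
  have hnK : K.F.fixingSubgroup.Normal := hn.normal
  let ιL : L.Gal →* (Qb ≃ₐ[ℚ] Qb) := L.F.fixingSubgroup.subtype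
  let U : Subgroup L.Gal := K.F.fixingSubgroup.comap ιL
  have hU : U.Normal := hnK.comap ιL
  let j : U →* k.Gal :=
    { toFun := fun u => ⟨u.1.1, IntermediateField.fixingSubgroup_le hk u.2⟩
      map_one' := rfl
      map_mul' := fun _ _ => rfl }
  let ρU : U →* (R.W ≃ₗ[Qlb ℓ] R.W) :=
    (LinearMap.GeneralLinearGroup.generalLinearEquiv (Qlb ℓ) R.W).toMonoidHom.comp
      (MonoidHom.toHomUnits (R.ρ.comp j))
  have hρU : ∀ u x, ρU u x = R.ρ (j u) x := fun _ _ => rfl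
  let δL : L.Gal →* (Qlb ℓ)ˣ :=
    MonoidHom.comp (δ : ratField.Gal →* (Qlb ℓ)ˣ) (NField.incl (k := ratField) bot_le)
  obtain ⟨R', U', ⟨K', h', hKU'⟩, hR', ψ, hψ, hψ'⟩ := extend (E := Qlb ℓ) (W := R.W) (U := U)
    (ρ := ρU) (δ := δL) h2 (hirr k le_rfl).1
    (by
      intro P hP
      refine (hirr K hk).2 P fun g x hx => ?_
      have := hP ⟨NField.incl hL g, g.2⟩ x hx
      exact this)
    (by
      intro u
      apply Units.ext
      rw [LinearEquiv.coe_det]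
      exact hdet (j u))
    (by
      intro g
      obtain ⟨φ, hφ, hφ'⟩ := hK g
      refine ⟨LinearEquiv.ofBijective φ hφ, fun u => ?_⟩
      ext x
      exact hφ' ⟨u.1.1, u.2⟩ ⟨g.1 * u.1.1 * (g.1)⁻¹, mem_conj hn g.1 u.2⟩ rfl x)
    (fun V => ∃ (K' : NField) (h' : L.F ≤ K'.F), V = (K'.F.fixingSubgroup).comap ιL)
    (by
      intro c hc1 hc2 hc3
      obtain ⟨μ, hμ0, hμ, K', h', hK'⟩ := hT L K hL hnK c hc1 hc2
        (fun a b u v => hc3 a b _ u.2 _ v.2)
      refine ⟨μ, fun a h0 => ?_, hμ, _, ⟨K', h', rfl⟩, fun a u hu => hK' a ⟨u.1, hu⟩⟩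
      obtain ⟨n, hn0, hn1⟩ := hμ0 a
      rw [h0, zero_pow hn0.ne'] at hn1
      exact zero_ne_one hn1)
  subst hKU'
  obtain ⟨K'', hKK'', hK'K'', -⟩ := exists_normal₂ K K'
  refine ⟨⟨R.W, R'⟩, h2, ⟨K'', hL.trans hKK'', hk.trans hKK'', isom_iff.2 ⟨LinearEquiv.refl _ _,
    fun u x => ?_⟩⟩, ψ,
    ⟨K', h', fun u => congrArg Units.val (hψ _ u.2)⟩, hψ'⟩
  exact hR' ⟨NField.incl (hL.trans hKK'') u, IntermediateField.fixingSubgroup_le hKK'' u.2⟩
    (IntermediateField.fixingSubgroup_le hK'K'' u.2) x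

/-- **A representation with a potential extension is potentially invariant.** -/
theorem backward {L k : NField} {R : LRep ℓ k} {R' : LRep ℓ L} (h : PotIsom R' R) :
    PotInvariant L R := by
  obtain ⟨K₀, h₁, h₂, e⟩ := h
  obtain ⟨e, he⟩ := isom_iff.1 e
  intro g
  obtain ⟨K, hK, -, hn⟩ := exists_normal₂ K₀ K₀
  have hb : ∀ a : L.Gal, Function.Bijective (R'.ρ a) := fun a => by
    refine Function.bijective_iff_has_inverse.2 ⟨R'.ρ a⁻¹, fun x => ?_, fun x => ?_⟩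
    · rw [← Module.End.mul_apply, ← map_mul, inv_mul_cancel, map_one, Module.End.one_apply]
    · rw [← Module.End.mul_apply, ← map_mul, mul_inv_cancel, map_one, Module.End.one_apply]
  refine ⟨K, h₂.trans hK, potFixes_iff.2 ⟨e.toLinearMap ∘ₗ R'.ρ g ∘ₗ e.symm.toLinearMap, ?_, ?_⟩⟩
  · exact e.bijective.comp ((hb g).comp e.symm.bijective)
  · intro u u' hu x
    rw [res_act, res_act]
    show e (R'.ρ g (e.symm (R.ρ (NField.incl (h₂.trans hK) u) x))) =
      R.ρ (NField.incl (h₂.trans hK) u') (e (R'.ρ g (e.symm x)))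
    have e1 : ∀ (v : K.Gal) (y : R'.W), e (R'.ρ (NField.incl (h₁.trans hK) v) y) =
        R.ρ (NField.incl (h₂.trans hK) v) (e y) := fun v y => he (NField.incl hK v) y
    have e2 : e.symm (R.ρ (NField.incl (h₂.trans hK) u) x) =
        R'.ρ (NField.incl (h₁.trans hK) u) (e.symm x) := by
      rw [LinearEquiv.symm_apply_eq, e1, LinearEquiv.apply_symm_apply]
    have e3 : g * NField.incl (h₁.trans hK) u = NField.incl (h₁.trans hK) u' * g := by
      apply Subtype.ext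
      show g.1 * u.1 = u'.1 * g.1
      rw [hu, inv_mul_cancel_right]
    rw [e2, ← e1, ← Module.End.mul_apply, ← map_mul, e3, map_mul, Module.End.mul_apply]

/-- if the extension occurs in an abelian variety, so does the representation -/
theorem occurs {𝒜 : AbVars ℓ} {𝒩 : Newforms ℓ} (hA : 𝒜.IsKnown) {L k : NField} {f : 𝒩.New k}
    {τ : 𝒩.M f →+* Qlb ℓ} {R : LRep ℓ L} (hR : PotIsom R (𝒩.ρ f τ)) {K : NField}
    (h : L.F ≤ K.F) {B : 𝒜.AV K} (hB : Occurs (res h R) (𝒜.V B)) : OccursPotentially 𝒜 𝒩 f := by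
  obtain ⟨K₀, h₁, h₂, e⟩ := hR
  obtain ⟨K', h₀', h', -⟩ := exists_normal₂ K₀ K
  obtain ⟨B', hB'⟩ := hA.ext K K' h' B
  refine ⟨τ, K', h₂.trans h₀', B', ?_⟩
  have h3 : Occurs (res h' (res h R)) (𝒜.V B') := occurs_right (occurs_res h' hB) hB'
  obtain ⟨e, he⟩ := isom_iff.1 e
  obtain ⟨φ, hφ0, hφ⟩ := h3
  refine ⟨φ ∘ₗ e.symm.toLinearMap, fun h0 => hφ0 ?_, fun u x => ?_⟩
  · ext x
    have h4 : φ (e.symm (e x)) = 0 := LinearMap.congr_fun h0 (e x)
    rw [LinearEquiv.symm_apply_apply] at h4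
    exact h4
  · have e1 : e.symm (𝒩.ρ f τ |>.ρ (NField.incl (h₂.trans h₀') u) x) =
        R.ρ (NField.incl (h₁.trans h₀') u) (e.symm x) := by
      rw [LinearEquiv.symm_apply_eq]
      have := he (NField.incl h₀' u) (e.symm x)
      rw [LinearEquiv.apply_symm_apply] at this
      exact this.symm
    show φ (e.symm ((𝒩.ρ f τ).ρ (NField.incl (h₂.trans h₀') u) x)) = _
    rw [e1]
    exact hφ u (e.symm x)

end Pool.Agent.J4.H28.PI
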